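import Mathlib

set_option autoImplicit false

namespace Pool.Agent.Results.MP_5ee7f3_co.Ten

open SimpleGraph Finset

/-- `G` contains an immersion of the complete graph on `d` vertices -/
def Imm {V : Type} (G : SimpleGraph V) (d : ℕ) : Prop :=
  ∃ (v : Fin d ↪ V) (P : ∀ i j, i < j → G.Walk (v i) (v j)), (∀ i j h, (P i j h).IsPath) ∧
    ∀ i j h k l h', (i, j) ≠ (k, l) → ∀ e, e ∈ (P i j h).edges → e ∉ (P k l h').edges

structure Sys {V : Type} (A : V → V → Prop) (u : Fin 10 → V) (F : Fin 10 → Fin 10 → V → V → Prop) :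
    Prop where
  adj : ∀ {i j a b}, F i j a b → A a b
  s1 : ∀ {i j a b}, F i j a b → F j i a b
  s2 : ∀ {i j a b}, F i j a b → F i j b a
  dis : ∀ {i j k l a b}, F i j a b → F k l a b → (i = k ∧ j = l) ∨ (i = l ∧ j = k)
  cut : ∀ {i j} (S : V → Prop), S (u i) → ¬ S (u j) → ∃ a b, S a ∧ ¬ S b ∧ F i j a b

theorem Imm.sys {V : Type} {G : SimpleGraph V} (h : Imm G 10) :
    ∃ u F, Function.Injective u ∧ Sys G.Adj u F := by
  obtain ⟨v, P, -, h⟩ := h
  refine ⟨v, fun i j a b => (∃ h, s(a, b) ∈ (P i j h).edges) ∨ ∃ h, s(a, b) ∈ (P j i h).edges,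
    v.injective, ?_, Or.symm, ?_, ?_, ?_⟩
  · rintro i j a b (⟨_, k⟩ | ⟨_, k⟩) <;> exact Walk.adj_of_mem_edges _ k
  · intro i j a b k
    rwa [Sym2.eq_swap]
  · have : ∀ i j x k l y e, e ∈ (P i j x).edges → e ∈ (P k l y).edges → i = k ∧ j = l :=
      fun i j x k l y e a b => by_contra fun n => h i j x k l y (by simpa using n) e a b
    rintro i j k l a b (⟨x, p⟩ | ⟨x, p⟩) (⟨y, q⟩ | ⟨y, q⟩) <;> have := this _ _ _ _ _ _ _ p q <;> tauto
  · intro i j S a b
    rcases lt_trichotomy i j with k | k | k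
    · obtain ⟨d, h1, h2, h3⟩ := (P i j k).exists_boundary_dart S a b
      exact ⟨d.fst, d.snd, h2, h3, Or.inl ⟨k, List.mem_map_of_mem h1⟩⟩
    · exact absurd (k ▸ a) b
    · obtain ⟨d, h1, h2, h3⟩ := (P j i k).exists_boundary_dart {x | ¬ S x} b (not_not.mpr a)
      exact ⟨d.snd, d.fst, not_not.mp h3, h2, Or.inr ⟨k, by
        rw [Sym2.eq_swap]; exact List.mem_map_of_mem h1⟩⟩

theorem Sys.count {V : Type} {A : V → V → Prop} {u F} (h : Sys A u F) (S : V → Prop) {i j : Fin 10}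
    (hi : S (u i)) (hj : ¬ S (u j)) (T : Finset (V × V)) (hT : ∀ a b, S a → ¬ S b → A a b → (a, b) ∈ T) :
    9 ≤ #T := by
  have : ∀ k, ∃ p : V × V, p ∈ T ∧ ((S (u k) ∧ F k j p.1 p.2) ∨ (¬ S (u k) ∧ F i k p.1 p.2)) := fun k => by
    by_cases e : S (u k)
    · obtain ⟨a, b, h1, h2, h3⟩ := h.cut S e hj
      exact ⟨(a, b), hT a b h1 h2 (h.adj h3), Or.inl ⟨e, h3⟩⟩
    · obtain ⟨a, b, h1, h2, h3⟩ := h.cut S hi e
      exact ⟨(a, b), hT a b h1 h2 (h.adj h3), Or.inr ⟨e, h3⟩⟩
  choose g h1 h2 using this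
  simpa using card_le_card_of_injOn (s := univ.erase i) g (fun k _ => h1 k) fun k hk l hl e => by
    have hk : k ≠ i := by simpa using hk
    have hl : l ≠ i := by simpa using hl
    have a := h2 k
    have b := h2 l
    rw [← e] at b
    rcases a with ⟨a, a'⟩ | ⟨a, a'⟩ <;> rcases b with ⟨b, b'⟩ | ⟨b, b'⟩ <;>
      rcases h.dis a' b' with c | c <;> grind

def A (x y : Fin 12) : Prop := x.1 / 3 ≠ y.1 / 3

instance : DecidableRel A := fun _ _ => inferInstanceAs (Decidable (_ ≠ _))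

theorem pod {u F} (hu : Function.Injective u) (h : Sys A u F) : False := by
  have : ∀ i k, ∃ y, k ≠ i → F i k (u i) y := fun i k => by
    by_cases e : k = i
    · exact ⟨0, fun x => absurd e x⟩
    · obtain ⟨a, b, rfl, -, h3⟩ := h.cut (i := i) (j := k) (· = u i) rfl (hu.ne e)
      exact ⟨b, fun _ => h3⟩
  choose g hg using this
  have own : ∀ i y, A (u i) y → ∃ k ≠ i, g i k = y := fun i y hy => by
    have c : ∀ x, #{y | A x y} = 9 := by decide +kernel
    have : (univ.erase i).image (g i) = univ.filter (A (u i)) := by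
      refine eq_of_subset_of_card_le (fun y hy => ?_) ?_
      · obtain ⟨k, hk, rfl⟩ := mem_image.mp hy
        simpa using h.adj (hg i k (by simpa using hk))
      · rw [c, card_image_of_injOn, card_erase_of_mem (mem_univ _)]
        · simp
        · intro k hk l hl e
          have hk : k ≠ i := by simpa using hk
          have := h.dis (hg i k hk) (e ▸ hg i l (by simpa using hl))
          grind
    simpa using this.ge (mem_filter.mpr ⟨mem_univ y, hy⟩)
  have key : ∀ {k l i y}, F k l (u i) y → (k = i ∧ l ≠ i ∧ g i l = y) ∨ (l = i ∧ k ≠ i ∧ g i k = y) := by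
    intro k l i y e
    obtain ⟨m, h1, rfl⟩ := own i y (h.adj e)
    have := h.dis e (hg i m h1)
    grind
  obtain ⟨a, b, hab, hc⟩ := card_eq_two.mp (show #(univ.image u)ᶜ = 2 by
    rw [card_compl, card_image_of_injective _ hu]; simp)
  have cor : ∀ y, y = a ∨ y = b ∨ ∃ i, u i = y := fun y => by
    by_contra n
    have : y ∈ (univ.image u)ᶜ := by simp; grind
    rw [hc] at this
    simp at this
    tauto
  have na : ∀ i, u i ≠ a ∧ u i ≠ b := fun i => by
    have : u i ∉ ({a, b} : Finset _) := by rw [← hc]; simp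
    simpa using this
  have lab : ∀ i j, j ≠ i → ¬ A (u i) (u j) → g i j = a ∨ g i j = b := fun i j e n => by
    rcases cor (g i j) with x | x | ⟨k, x⟩
    exacts [Or.inl x, Or.inr x, by
      have y := hg i j e
      rw [← x] at y
      have z := h.adj y
      have := key (h.s2 y)
      unfold A at z n
      grind]
  have two : ∀ i j x y, j ≠ i → (x = a ∧ y = b ∨ x = b ∧ y = a) → g i j = x → g j i = y → F i j x y := by
    intro i j x y e hx h1 h2
    obtain ⟨p, q, h3, h4, h5⟩ := h.cut (i := i) (j := j) (fun z => z = u i ∨ z = x) (Or.inl rfl) (by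
      have := na j
      have := hu.ne e
      grind)
    rcases h3 with rfl | rfl
    · have := key h5
      grind
    · rcases cor q with k | k | ⟨k, rfl⟩
      · grind
      · grind
      · have := key (h.s2 h5)
        grind
  have full : ∀ p : ℕ, p < 4 → a.1 / 3 ≠ p → b.1 / 3 ≠ p → ∃ i j, (u i).1 / 3 = p ∧ (u j).1 / 3 = p ∧
      F i j a b := fun p hp h1 h2 => by
    have : ∀ r (x : r < 3), ∃ i, u i = ⟨3 * p + r, by omega⟩ := fun r x => by
      rcases cor ⟨3 * p + r, by omega⟩ with k | k | k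
      · rw [← k] at h1; simp at h1; omega
      · rw [← k] at h2; simp at h2; omega
      · exact k
    obtain ⟨i, hi⟩ := this 0 (by omega)
    obtain ⟨j, hj⟩ := this 1 (by omega)
    obtain ⟨k, hk⟩ := this 2 (by omega)
    have ei : (u i).1 = 3 * p := by rw [hi]; rfl
    have ej : (u j).1 = 3 * p + 1 := by rw [hj]
    have ek : (u k).1 = 3 * p + 2 := by rw [hk]
    have nij : i ≠ j := by rintro rfl; omega
    have nik : i ≠ k := by rintro rfl; omega
    have njk : j ≠ k := by rintro rfl; omega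
    have ne : ∀ i j k, j ≠ i → k ≠ i → j ≠ k → g i j ≠ g i k := fun i j k a b c e => by
      have := h.dis (hg i j a) (e ▸ hg i k b)
      grind
    have tw : ∀ i j, j ≠ i → (u i).1 / 3 = p → (u j).1 / 3 = p → (g i j = a ∨ g i j = b) ∧
        (g i j = g j i ∨ ∃ i j, (u i).1 / 3 = p ∧ (u j).1 / 3 = p ∧ F i j a b) := fun i j e x y => by
      have l1 := lab i j e (by unfold A; omega)
      have l2 := lab j i e.symm (by unfold A; omega)
      refine ⟨l1, ?_⟩
      rcases l1 with l1 | l1 <;> rcases l2 with l2 | l2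
      exacts [Or.inl (l1.trans l2.symm), Or.inr ⟨i, j, x, y, two i j a b e (by simp) l1 l2⟩,
        Or.inr ⟨i, j, x, y, h.s2 (two i j b a e (by simp) l1 l2)⟩, Or.inl (l1.trans l2.symm)]
    have t1 := tw i j nij.symm (by omega) (by omega)
    have t2 := tw j k njk.symm (by omega) (by omega)
    have t3 := tw k i nik (by omega) (by omega)
    have := ne i j k nij.symm nik.symm njk
    have := ne j i k nij njk.symm nik
    have := ne k i j nik njk nij
    by_contra n
    grind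
  obtain ⟨p, q, h1, h2, h3, h4, h5, h6, h7⟩ : ∃ p q : ℕ, p < 4 ∧ q < 4 ∧ p ≠ q ∧ a.1 / 3 ≠ p ∧
      b.1 / 3 ≠ p ∧ a.1 / 3 ≠ q ∧ b.1 / 3 ≠ q := by
    have : ∀ a b : Fin 12, ∃ p q : Fin 4, p ≠ q ∧ a.1 / 3 ≠ p ∧ b.1 / 3 ≠ p ∧ a.1 / 3 ≠ q ∧
      b.1 / 3 ≠ q := by decide +kernel
    obtain ⟨p, q, x, y⟩ := this a b
    exact ⟨p, q, p.2, q.2, Fin.val_ne_of_ne x, y⟩
  obtain ⟨i, j, a1, a2, a3⟩ := full p h1 h4 h5
  obtain ⟨k, l, b1, b2, b3⟩ := full q h2 h6 h7
  have := h.dis a3 b3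
  grind

def r (a b : Fin 33) : Prop := (a.1 < 9 ∧ b.1 < 9) ∨ (a.1 < 5 ∧ b.1 = 9) ∨ (5 ≤ a.1 ∧ a.1 < 9 ∧ b.1 = 21) ∨
  (9 ≤ a.1 ∧ 9 ≤ b.1 ∧ (a.1 - 9) / 12 = (b.1 - 9) / 12 ∧ a.1 / 3 ≠ b.1 / 3)

instance : DecidableRel r := fun _ _ => by unfold r; infer_instance

def G : SimpleGraph (Fin 33) := fromRel r

instance : DecidableRel G.Adj := fun a b => decidable_of_iff _ (fromRel_adj _ a b).symm

def emb (t : Fin 2) (x : Fin 12) : Fin 33 := ⟨9 + 12 * t.1 + x.1, by omega⟩

def pr (t : Fin 2) (a : Fin 33) : Fin 12 :=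
  if h : 9 + 12 * t.1 ≤ a.1 ∧ a.1 < 21 + 12 * t.1 then ⟨a.1 - (9 + 12 * t.1), by omega⟩ else 0

theorem result : ∃ (d n : ℕ) (H : SimpleGraph (Fin n)) (_ : DecidableRel H.Adj), 0 < n ∧
    H.minDegree + 1 = d ∧ H.chromaticNumber + 1 = d ∧ ¬ Imm H d := by
  refine ⟨10, 33, G, inferInstance, by omega, ?_, ?_, fun h => ?_⟩
  · have a := G.minDegree_le_degree 0
    have b := G.le_minDegree_of_forall_le_degree 9 (by decide +kernel)
    have : G.degree 0 = 9 := by decide +kernel
    omega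
  · have a : G.Colorable 9 := ⟨Coloring.mk (fun a => Fin.ofNat 9 (if a.1 < 9 then a.1 else a.1 / 3 + 2))
      (by decide +kernel)⟩
    have b := IsClique.card_le_chromaticNumber (G := G) (s := {a | a.1 < 9}) (by
      have : ∀ a b : Fin 33, a.1 < 9 → b.1 < 9 → a ≠ b → G.Adj a b := by decide +kernel
      intro a x b y
      exact this a b (by simpa using x) (by simpa using y))
    rw [show #{a : Fin 33 | a.1 < 9} = 9 by decide +kernel] at b
    rw [le_antisymm a.chromaticNumber_le b]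
    rfl
  obtain ⟨u, F, hu, h⟩ := h.sys
  have all : ∀ t : Fin 2, ∀ i, ¬ (9 + 12 * t.1 ≤ (u i).1 ∧ (u i).1 < 21 + 12 * t.1) := fun t i hi => by
    have ins : ∀ j, 9 + 12 * t.1 ≤ (u j).1 ∧ (u j).1 < 21 + 12 * t.1 := fun j => by_contra fun n => by
      have := h.count (fun a => 9 + 12 * t.1 ≤ a.1 ∧ a.1 < 21 + 12 * t.1) hi n
        (({b | b.1 < 9 ∧ (b.1 < 5 ↔ t = 0)} : Finset _).image fun b => (emb t 0, b))
        (by clear hi n; revert t; decide +kernel)
      have := this.trans card_image_le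
      revert this
      clear hi n
      revert t
      decide +kernel
    have e1 : ∀ a, 9 + 12 * t.1 ≤ a.1 ∧ a.1 < 21 + 12 * t.1 → emb t (pr t a) = a := by
      clear hi ins; revert t; decide +kernel
    have e2 : ∀ a b, G.Adj a b → pr t a ≠ pr t b → emb t (pr t a) = a ∧ emb t (pr t b) = b := by
      clear hi ins e1; revert t; decide +kernel
    have e3 : ∀ x y, G.Adj (emb t x) (emb t y) → A x y := by
      clear hi ins e1 e2; revert t; decide +kernel
    refine pod (u := fun i => pr t (u i)) (F := fun i j x y => F i j (emb t x) (emb t y))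
      (fun i j e => hu ?_) ⟨fun k => e3 _ _ (h.adj k), h.s1, h.s2, h.dis, fun S a b => ?_⟩
    · rw [← e1 _ (ins i), ← e1 _ (ins j)]
      exact congrArg _ e
    · obtain ⟨x, y, h1, h2, h3⟩ := h.cut (fun z => S (pr t z)) a b
      have := e2 x y (h.adj h3) fun e => h2 (e ▸ h1)
      exact ⟨_, _, h1, h2, by rwa [this.1, this.2]⟩
  have := Fintype.card_le_of_injective (fun i => (⟨(u i).1, by
    have := all 0 i
    have := all 1 i
    simp only [Fin.val_zero, Fin.val_one] at *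
    omega⟩ : Fin 9)) fun i j e => hu (Fin.ext (Fin.mk.inj e))
  simp at this

end Pool.Agent.Results.MP_5ee7f3_co.Ten
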